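import Mathlib
import Pool.Agent.Shared.ErdosGallai

set_option autoImplicit false

namespace Pool.Agent.Lib.MP_046423_co

open Finset
open Pool.Agent.Shared.ErdosGallai

/-- A symmetric 0/1 matrix on the label set `L` with constant diagonal `c`, row sums `r`,
annihilating the vector of labels. -/
def Z (c : ℤ) (L : Finset ℤ) (r : ℤ) : Prop :=
  ∃ A : ℤ → ℤ → ℤ, (∀ x ∈ L, ∀ y ∈ L, A x y = 0 ∨ A x y = 1) ∧ (∀ x ∈ L, ∀ y ∈ L, A x y = A y x) ∧
    (∀ x ∈ L, A x x = c) ∧ (∀ x ∈ L, ∑ y ∈ L, A x y = r) ∧ ∀ x ∈ L, ∑ y ∈ L, A x y * y = 0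

lemma Z.compl {c : ℤ} {L : Finset ℤ} {r : ℤ} (h : Z c L r) (hL : ∑ y ∈ L, y = 0) :
    Z (1 - c) L (L.card - r) := by
  obtain ⟨A, h1, h2, h3, h4, h5⟩ := h
  refine ⟨fun x y => 1 - A x y, fun x hx y hy => ?_, fun x hx y hy => ?_, fun x hx => ?_,
    fun x hx => ?_, fun x hx => ?_⟩
  · have := h1 x hx y hy; dsimp only; omega
  · dsimp only; rw [h2 x hx y hy]
  · dsimp only; rw [h3 x hx]
  · simp [sum_sub_distrib, h4 x hx]
  · simp [sub_mul, sum_sub_distrib, h5 x hx, hL]

lemma Z.union {c : ℤ} {L M : Finset ℤ} {r : ℤ} (h : Z c L r) (h' : Z c M r) (hd : Disjoint L M) :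
    Z c (L ∪ M) r := by
  obtain ⟨A, h1, h2, h3, h4, h5⟩ := h
  obtain ⟨B, g1, g2, g3, g4, g5⟩ := h'
  have hd' : ∀ x ∈ M, x ∉ L := fun x hx hl => disjoint_left.1 hd hl hx
  have key : ∀ (w : ℤ → ℤ) (x : ℤ), x ∈ L ∪ M → ∑ y ∈ L ∪ M,
      (if x ∈ L ∧ y ∈ L then A x y else if x ∉ L ∧ y ∉ L then B x y else 0) * w y
      = if x ∈ L then ∑ y ∈ L, A x y * w y else ∑ y ∈ M, B x y * w y := by
    intro w x hx
    rw [sum_union hd]
    split_ifs with hl
    · rw [sum_congr rfl (g := fun y => A x y * w y) fun y hy => by simp [hl, hy],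
        sum_eq_zero (s := M) fun y hy => by simp [hl, hd' y hy], add_zero]
    · rw [sum_congr (s₁ := M) rfl (g := fun y => B x y * w y) fun y hy => by simp [hl, hd' y hy],
        sum_eq_zero (s := L) fun y hy => by simp [hl, hy], zero_add]
  refine ⟨fun x y => if x ∈ L ∧ y ∈ L then A x y else if x ∉ L ∧ y ∉ L then B x y else 0,
    fun x hx y hy => ?_, fun x hx y hy => ?_, fun x hx => ?_, fun x hx => ?_, fun x hx => ?_⟩
  · rw [mem_union] at hx hy
    dsimp only
    split_ifs with a b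
    · exact h1 x a.1 y a.2
    · exact g1 x (by tauto) y (by tauto)
    · exact Or.inl rfl
  · rw [mem_union] at hx hy
    by_cases a : x ∈ L <;> by_cases b : y ∈ L <;> simp only [a, b] <;> simp
    · exact h2 x a y b
    · exact g2 x (by tauto) y (by tauto)
  · rw [mem_union] at hx
    by_cases a : x ∈ L <;> simp only [a] <;> simp
    · exact h3 x a
    · exact g3 x (by tauto)
  · have := key (fun _ => 1) x hx
    simp only [mul_one] at this
    rw [this]
    rw [mem_union] at hx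
    split_ifs with a
    · exact h4 x a
    · exact g4 x (by tauto)
  · rw [key (fun y => y) x hx]
    rw [mem_union] at hx
    split_ifs with a
    · exact h5 x a
    · exact g5 x (by tauto)

/-- blow-up of a weighted quotient matrix along zero-sum blocks -/
lemma Z.blocks {ι : Type} [DecidableEq ι] (s : Finset ι) (B : ι → Finset ℤ) (c r : ℤ)
    (hd : ∀ i ∈ s, ∀ j ∈ s, ∀ x ∈ B i, x ∈ B j → i = j) (h0 : ∀ i ∈ s, ∑ y ∈ B i, y = 0)
    (Q : ι → ι → ℤ) (q1 : ∀ i ∈ s, ∀ j ∈ s, Q i j = 0 ∨ Q i j = 1)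
    (q2 : ∀ i ∈ s, ∀ j ∈ s, Q i j = Q j i) (q3 : ∀ i ∈ s, Q i i = c)
    (q4 : ∀ i ∈ s, ∑ j ∈ s, Q i j * (B j).card = r) : Z c (s.biUnion B) r := by
  classical
  rcases s.eq_empty_or_nonempty with rfl | ⟨i0, -⟩
  · exact ⟨0, by simp, by simp, by simp, by simp, by simp⟩
  have hex : ∀ x : ℤ, ∃ i : ι, x ∈ s.biUnion B → i ∈ s ∧ x ∈ B i := fun x => by
    by_cases h : x ∈ s.biUnion B
    · obtain ⟨i, hi, hx⟩ := mem_biUnion.1 h
      exact ⟨i, fun _ => ⟨hi, hx⟩⟩
    · exact ⟨i0, fun h' => absurd h' h⟩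
  choose β hβ using hex
  have hpd : (s : Set ι).PairwiseDisjoint B := fun i hi j hj hij =>
    disjoint_left.2 fun x hx hx' => hij (hd i hi j hj x hx hx')
  have key : ∀ (w : ℤ → ℤ) (i : ι), ∑ y ∈ s.biUnion B, Q i (β y) * w y
      = ∑ j ∈ s, Q i j * ∑ y ∈ B j, w y := by
    intro w i
    rw [sum_biUnion hpd]
    refine sum_congr rfl fun j hj => ?_
    rw [mul_sum]
    refine sum_congr rfl fun y hy => ?_
    have := hβ y (mem_biUnion.2 ⟨j, hj, hy⟩)
    rw [hd _ this.1 j hj y this.2 hy]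
  refine ⟨fun x y => Q (β x) (β y), fun x hx y hy => q1 _ (hβ x hx).1 _ (hβ y hy).1,
    fun x hx y hy => q2 _ (hβ x hx).1 _ (hβ y hy).1, fun x hx => q3 _ (hβ x hx).1,
    fun x hx => ?_, fun x hx => ?_⟩
  · have := key (fun _ => 1) (β x)
    simp only [mul_one, sum_const, nsmul_eq_mul] at this
    rw [this, q4 _ (hβ x hx).1]
  · rw [key (fun y => y)]
    exact sum_eq_zero fun j hj => by rw [h0 j hj, mul_zero]

/-- bipartite 0/1 matrix with given row sums and equal column sums -/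
lemma exists_bip (k t x : ℕ) (y : ℕ → ℕ) (hy : ∀ p < t, y p ≤ k)
    (hs : ∑ p ∈ range t, y p = k * x) :
    ∃ W : ℕ → ℕ → ℤ, (∀ c, ∀ p < t, W c p = 0 ∨ W c p = 1) ∧
      (∀ p < t, ∑ c ∈ range k, W c p = y p) ∧ ∀ c < k, ∑ p ∈ range t, W c p = x := by
  set S : ℕ → ℕ := fun p => ∑ q ∈ range p, y q with hS
  have hS1 : ∀ p, S (p + 1) = S p + y p := fun p => sum_range_succ _ _
  refine ⟨fun c p => ∑ s ∈ Ico (S p) (S (p + 1)), if s % k = c then 1 else 0, fun c p hp => ?_,
    fun p hp => ?_, fun c hc => ?_⟩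
  · have : #{s ∈ Ico (S p) (S (p + 1)) | s % k = c} ≤ 1 := by
      refine card_le_one.2 fun a ha b hb => ?_
      rw [mem_filter, mem_Ico, hS1] at ha hb
      have h1 := hy p hp
      have e : a ≡ b [MOD k] := by unfold Nat.ModEq; omega
      exact Nat.ModEq.eq_of_abs_lt e (by rw [abs_lt]; omega)
    dsimp only
    rw [sum_boole]
    omega
  · rw [sum_comm]
    have h1 := hy p hp
    rw [sum_congr rfl (g := fun _ => 1) fun s hs => by
      have := mem_Ico.1 hs
      rw [hS1] at this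
      have : s % k < k := Nat.mod_lt _ (by omega)
      simp [this]]
    simp [hS1]
  · have e : ∀ (g : ℕ → ℤ) (n : ℕ), ∑ p ∈ range n, ∑ s ∈ Ico (S p) (S (p + 1)), g s
        = ∑ s ∈ range (S n), g s := by
      intro g n
      induction n with
      | zero => simp [hS]
      | succ n ih => rw [sum_range_succ, ih, sum_range_add_sum_Ico _ (by rw [hS1]; omega)]
    rw [e]
    have : S t = k * x := hs
    rw [this]
    clear this hs
    induction x with
    | zero => simp
    | succ x ih =>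
      rw [Nat.mul_succ, sum_range_add, ih]
      rw [sum_congr rfl (g := fun s => if s = c then 1 else 0) fun s hs => by
        rw [Nat.mul_add_mod, Nat.mod_eq_of_lt (mem_range.1 hs)]]
      simp [hc]

/-- A system of `k` zero-sum triples and `t` zero-sum pairs partitioning `L`. -/
def Sys (k t : ℕ) (L : Finset ℤ) : Prop :=
  ∃ B : ℕ ⊕ ℕ → Finset ℤ,
    (∀ i ∈ (range k).disjSum (range t), ∀ j ∈ (range k).disjSum (range t),
      ∀ x ∈ B i, x ∈ B j → i = j) ∧
    (∀ i ∈ (range k).disjSum (range t), ∑ y ∈ B i, y = 0) ∧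
    (∀ c < k, (B (.inl c)).card = 3) ∧ (∀ p < t, (B (.inr p)).card = 2) ∧
    ((range k).disjSum (range t)).biUnion B = L

lemma Sys.closed {k t : ℕ} {L : Finset ℤ} (h : Sys k t L) (x : ℕ) (y : ℕ → ℕ) (σ : ℤ)
    (hy : ∀ p < t, y p ≤ k) (hs : ∑ p ∈ range t, y p = k * x) (hx : σ = 3 + 2 * x)
    (H : ℕ → ℕ → ℤ) (ok : Ok H) (hH : ∀ p < t, σ = 2 + 3 * y p + 2 * deg t H p) : Z 1 L σ := by
  obtain ⟨B, b1, b2, b3, b4, rfl⟩ := h
  obtain ⟨W, w1, w2, w3⟩ := exists_bip k t x y hy hs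
  refine Z.blocks _ B 1 σ b1 b2 (fun i j => match i, j with
    | .inl c, .inl c' => if c = c' then 1 else 0
    | .inl c, .inr p => W c p
    | .inr p, .inl c => W c p
    | .inr p, .inr q => H p q + if p = q then 1 else 0) ?_ ?_ ?_ ?_
  · rintro (c | p) hi (c' | q) hj <;> simp only [inl_mem_disjSum, inr_mem_disjSum, mem_range] at hi hj
    · dsimp only; split_ifs <;> simp
    · exact w1 _ _ hj
    · exact w1 _ _ hi
    · dsimp only
      split_ifs with e
      · subst e; simp [ok.diag]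
      · simpa using ok.zo p q
  · rintro (c | p) hi (c' | q) hj
    · simp only [eq_comm]
    · rfl
    · rfl
    · simp only [ok.symm p q, eq_comm]
  · rintro (c | p) _
    · simp
    · simp [ok.diag]
  · rintro (c | p) hi <;> simp only [inl_mem_disjSum, inr_mem_disjSum, mem_range] at hi <;>
      rw [sum_disjSum] <;> dsimp only <;>
      rw [sum_congr (s₁ := range k) rfl fun c hc => by rw [b3 c (mem_range.1 hc)],
        sum_congr (s₁ := range t) rfl fun c hc => by rw [b4 c (mem_range.1 hc)], ← sum_mul, ← sum_mul]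
    · rw [w3 c hi]; simp [hi]; omega
    · rw [w2 p hi, sum_add_distrib]
      have := hH p hi
      unfold deg at this
      simp [hi]; omega

end Pool.Agent.Lib.MP_046423_co
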