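import Pool.Agent.Lib.MP_046423_co.Labels

set_option autoImplicit false

namespace Pool.Agent.Lib.MP_046423_co

open Finset

def cnt (f : ℕ → Bool) : ℕ → ℕ
  | 0 => 0
  | w + 1 => cnt f w + bif f w then 1 else 0

def wt (f : ℕ → Bool) : ℕ → ℕ
  | 0 => 0
  | w + 1 => wt f w + bif f w then w else 0

lemma cnt_eq (f : ℕ → Bool) (n : ℕ) :
    (cnt f n : ℤ) = ∑ w ∈ range n, if f w then 1 else 0 := by
  induction n with
  | zero => simp [cnt]
  | succ n ih => rw [cnt, sum_range_succ, ← ih]; cases f n <;> simp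

lemma wt_eq (f : ℕ → Bool) (n : ℕ) :
    (wt f n : ℤ) = ∑ w ∈ range n, (if f w then 1 else 0) * (w : ℤ) := by
  induction n with
  | zero => simp [wt]
  | succ n ih => rw [wt, sum_range_succ, ← ih]; cases f n <;> simp

lemma sum_C_range (m : ℕ) (g : ℤ → ℤ) :
    ∑ y ∈ C m, g y = ∑ w ∈ range (2 * m + 1), g ((w : ℤ) - m) := by
  refine (sum_bij (fun (w : ℕ) _ => (w : ℤ) - m) (fun w hw => ?_) (fun a _ b _ e => by omega)
    (fun y hy => ⟨(y + m).toNat, ?_, ?_⟩) (fun _ _ => rfl)).symm
  · simp only [C, mem_Icc, mem_range] at hw ⊢; omega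
  · simp only [C, mem_Icc, mem_range] at hy ⊢; omega
  · simp only [C, mem_Icc] at hy; omega

/-- Boolean form of `Z 0 (C m) r`. -/
def ZB (m r : ℕ) : Prop := ∃ f : ℕ → ℕ → Bool, (∀ v < 2 * m + 1, ∀ w < 2 * m + 1, f v w = f w v) ∧
  ∀ v < 2 * m + 1, f v v = false ∧ cnt (f v) (2 * m + 1) = r ∧ wt (f v) (2 * m + 1) = r * m

lemma Z_iff_ZB (m r : ℕ) : Z 0 (C m) r ↔ ZB m r := by
  constructor
  · rintro ⟨A, h1, h2, h3, h4, h5⟩
    have hm : ∀ v < 2 * m + 1, (v : ℤ) - m ∈ C m := fun v hv => by simp only [C, mem_Icc]; omega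
    refine ⟨fun v w => decide (A (v - m) (w - m) = 1), fun v hv w hw => by
      dsimp only; rw [h2 _ (hm v hv) _ (hm w hw)], fun v hv => ?_⟩
    have e : ∀ w ∈ range (2 * m + 1),
        (if decide (A (v - m) (w - m) = 1) then (1 : ℤ) else 0) = A (v - m) (w - m) := fun w hw => by
      rcases h1 _ (hm v hv) _ (hm w (mem_range.1 hw)) with h | h <;> simp [h]
    have a4 := h4 _ (hm v hv)
    have a5 := h5 _ (hm v hv)
    rw [sum_C_range] at a4 a5
    refine ⟨by simp [h3 _ (hm v hv)], ?_, ?_⟩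
    · zify; rw [cnt_eq, sum_congr rfl e, a4]
    · zify
      rw [wt_eq, sum_congr rfl fun w hw => by rw [e w hw]]
      simp only [mul_sub, sum_sub_distrib, ← sum_mul, a4] at a5
      linarith
  · rintro ⟨f, h1, h2⟩
    have hm : ∀ x ∈ C m, (x + m).toNat < 2 * m + 1 := fun x hx => by
      simp only [C, mem_Icc] at hx; omega
    refine ⟨fun x y => if f (x + m).toNat (y + m).toNat then 1 else 0, fun x _ y _ => ?_,
      fun x hx y hy => ?_, fun x hx => ?_, fun x hx => ?_, fun x hx => ?_⟩
    · dsimp only; split_ifs <;> simp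
    · dsimp only; rw [h1 _ (hm x hx) _ (hm y hy)]
    · dsimp only; rw [(h2 _ (hm x hx)).1]; simp
    · rw [sum_C_range, ← (h2 _ (hm x hx)).2.1, cnt_eq]; simp
    · have a1 := (h2 _ (hm x hx)).2.1
      have a2 := (h2 _ (hm x hx)).2.2
      zify at a1 a2
      rw [cnt_eq] at a1
      rw [wt_eq] at a2
      rw [sum_C_range]
      simp only [sub_add_cancel, Int.toNat_natCast, mul_sub, sum_sub_distrib, ← sum_mul, a1, a2]
      ring

def adj (P v w : ℕ) : Bool :=
  bif Nat.blt v w then P.testBit (w * (w - 1) / 2 + v)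
  else bif Nat.blt w v then P.testBit (v * (v - 1) / 2 + w) else false

def chk (m r P : ℕ) : Bool := (List.range (2 * m + 1)).all fun v =>
  Nat.beq (cnt (adj P v) (2 * m + 1)) r && Nat.beq (wt (adj P v) (2 * m + 1)) (r * m)

lemma chk_sound {m r P : ℕ} (h : chk m r P = true) : Z 0 (C m) r := by
  rw [Z_iff_ZB]
  simp only [chk, List.all_eq_true, List.mem_range, Bool.and_eq_true, Nat.beq_eq] at h
  refine ⟨adj P, fun v _ w _ => ?_, fun v hv => ⟨by simp [adj], h v hv⟩⟩
  unfold adj
  rcases lt_trichotomy v w with h | h | h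
  · simp [h, h.not_gt, cond_eq_ite]
  · subst h; rfl
  · simp [h, h.not_gt, cond_eq_ite]

/-! ### refutation by exhaustive search -/

inductive EL
  | nil
  | bad
  | cons (w x a b : ℕ) (tl : EL)

noncomputable def ccons (w x a b : ℕ) (l : EL) : EL :=
  EL.rec (EL.cons w x a b EL.nil) EL.bad
    (fun w2 x2 a2 b2 tl _ => EL.cons w x a b (EL.cons w2 x2 a2 b2 tl)) l

noncomputable def filt (S a b : ℕ) (l : EL) : EL :=
  EL.rec EL.nil EL.bad (fun w x a' b' _ ih =>
    Nat.rec EL.bad (fun y _ => ccons w y.succ a' b' ih)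
      (Nat.land x (Nat.rec b (fun _ _ => a) (Nat.land (Nat.shiftRight S w) 1)))) l

noncomputable def force (n : ℕ) (k : ℕ → Bool) : Bool := Nat.rec (k 0) (fun y _ => k y.succ) n

lemma force_eq (n : ℕ) (k : ℕ → Bool) : force n k = k n := by cases n <;> rfl

noncomputable def loop (k : ℕ → Bool) (f : ℕ) : ℕ → Bool :=
  Nat.rec (fun _ => false) (fun _ ih x => Nat.rec true (fun y _ => force (Nat.log2 y.succ) fun j =>
    Bool.rec false (ih (Nat.sub y.succ (Nat.shiftLeft 1 j))) (k j)) x) f

def row (PS j : ℕ) : ℕ := Nat.land (Nat.shiftRight PS (Nat.mul 16 j)) 65535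

noncomputable def go (PS : ℕ) (d : ℕ) : EL → Bool :=
  Nat.rec (fun _ => false) (fun _ ih l => EL.rec false true (fun _ x a b tl _ =>
    loop (fun j => force (row PS j) fun S => ih (filt S a b tl)) 80 x) l) d

lemma loop_sound (k : ℕ → Bool) (j : ℕ) : ∀ f x, loop k f x = true → x.testBit j = true → k j = true
  | 0, _, h, _ => by simp [loop] at h
  | f + 1, 0, _, h => by simp at h
  | f + 1, y + 1, h, h' => by
    have h0 : force (y + 1).log2 (fun j => Bool.rec false (loop k f (y + 1 - 1 <<< j)) (k j)) = true := h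
    rw [force_eq, Nat.one_shiftLeft] at h0
    have h : k (y + 1).log2 = true ∧ loop k f (y + 1 - 2 ^ (y + 1).log2) = true := by
      cases e : k (y + 1).log2 <;> rw [e] at h0
      · simp at h0
      · exact ⟨rfl, h0⟩
    by_cases e : j = (y + 1).log2
    · rw [e]; exact h.1
    · refine loop_sound k j f _ h.2 ?_
      have h1 : 2 ^ (y + 1).log2 ≤ y + 1 := Nat.log2_self_le (by omega)
      have h2 : y + 1 < 2 ^ ((y + 1).log2 + 1) := Nat.lt_log2_self
      obtain ⟨z, hz⟩ := Nat.exists_eq_add_of_le h1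
      have h3 : j < (y + 1).log2 := by
        by_contra hc
        rw [Nat.testBit_lt_two_pow (lt_of_lt_of_le h2 (Nat.pow_le_pow_right (by omega) (by omega)))] at h'
        simp at h'
      have h4 : y + 1 - 2 ^ (y + 1).log2 = z := by omega
      rw [h4]
      rw [hz, Nat.testBit_two_pow_add_gt h3] at h'
      exact h'

def Good (PS n : ℕ) (idx : ℕ → ℕ) (J : ℕ) : EL → Prop
  | .nil => True
  | .bad => False
  | .cons w x a b tl => w < n ∧ x.testBit (idx w) = true ∧ (∀ j < J,
      a.testBit j = (row PS j).testBit w ∧ b.testBit j = !(row PS j).testBit w) ∧ Good PS n idx J tl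

lemma sel_eq (S w a b : ℕ) : (Nat.rec b (fun _ _ => a) (Nat.land (Nat.shiftRight S w) 1) : ℕ)
    = bif S.testBit w then a else b := by
  have : Nat.land (Nat.shiftRight S w) 1 = (S >>> w) % 2 := Nat.and_one_is_mod _
  rw [this, Nat.testBit_eq_decide_div_mod_eq, Nat.shiftRight_eq_div_pow]
  rcases Nat.mod_two_eq_zero_or_one (S / 2 ^ w) with h | h <;> rw [h] <;> rfl

lemma filt_sound {PS n J : ℕ} {idx : ℕ → ℕ} {S a b : ℕ}
    (h : ∀ w < n, (bif S.testBit w then a else b).testBit (idx w) = true) :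
    ∀ l : EL, Good PS n idx J l → Good PS n idx J (filt S a b l)
  | .nil, _ => trivial
  | .bad, h => h
  | .cons w x a' b' l, g => by
    have ih := filt_sound h l g.2.2.2
    have h1 : (Nat.land x (bif S.testBit w then a else b)).testBit (idx w) = true := by
      have := Nat.testBit_and x (bif S.testBit w then a else b) (idx w)
      rw [h w g.1, g.2.1] at this
      exact this
    have e : filt S a b (.cons w x a' b' l) = Nat.rec EL.bad
        (fun y _ => ccons w y.succ a' b' (filt S a b l))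
        (Nat.land x (Nat.rec b (fun _ _ => a) (Nat.land (Nat.shiftRight S w) 1))) := rfl
    rw [e, sel_eq]
    generalize Nat.land x (bif S.testBit w then a else b) = z at h1
    cases z with
    | zero => simp at h1
    | succ y =>
      change Good PS n idx J (ccons w y.succ a' b' (filt S a b l))
      generalize filt S a b l = l' at ih
      cases l' with
      | nil => exact ⟨g.1, h1, g.2.2.1, trivial⟩
      | bad => exact ih
      | cons => exact ⟨g.1, h1, g.2.2.1, ih⟩

lemma go_sound {PS n J : ℕ} {idx : ℕ → ℕ} (hJ : ∀ w < n, idx w < J)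
    (hs : ∀ v < n, ∀ w < n, (row PS (idx v)).testBit w = (row PS (idx w)).testBit v) :
    ∀ d l, Good PS n idx J l → go PS d l = true → False
  | 0, _, _, h => by simp [go] at h
  | _ + 1, .nil, _, h => by simp [go] at h
  | _ + 1, .bad, h, _ => h
  | d + 1, .cons v x a b l, g, h => by
    have h0 : loop (fun j => force (row PS j) fun S => go PS d (filt S a b l)) 80 x = true := h
    have h1 := loop_sound _ _ _ _ h0 g.2.1
    rw [force_eq] at h1
    refine go_sound hJ hs d _ (filt_sound (fun w hw => ?_) l g.2.2.2) h1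
    have := g.2.2.1 _ (hJ w hw)
    rw [hs v g.1 w hw]
    cases e : (row PS (idx w)).testBit v
    · simpa [e] using this.2
    · simpa [e] using this.1

def mask (f : ℕ → Bool) : ℕ → ℕ
  | 0 => 0
  | n + 1 => bif f n then 2 ^ n + mask f n else mask f n

lemma mask_spec (f : ℕ → Bool) : ∀ n, mask f n < 2 ^ n ∧ ∀ w < n, (mask f n).testBit w = f w
  | 0 => ⟨by simp [mask], by simp⟩
  | n + 1 => by
    obtain ⟨h1, h2⟩ := mask_spec f n
    rw [mask]
    cases e : f n
    · refine ⟨by simp; omega, fun w hw => ?_⟩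
      by_cases h : w = n
      · subst h; simp [e, Nat.testBit_lt_two_pow h1]
      · exact h2 w (by omega)
    · refine ⟨by simp; omega, fun w hw => ?_⟩
      by_cases h : w = n
      · subst h; simp [e, Nat.testBit_two_pow_add_eq, Nat.testBit_lt_two_pow h1]
      · simp only [cond_true]
        rw [Nat.testBit_two_pow_add_gt (by omega)]; exact h2 w (by omega)

def allLt (p : ℕ → Bool) : ℕ → Bool
  | 0 => true
  | n + 1 => p n && allLt p n

lemma allLt_iff {p : ℕ → Bool} : ∀ n, allLt p n = true ↔ ∀ i < n, p i = true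
  | 0 => by simp [allLt]
  | n + 1 => by
    rw [allLt, Bool.and_eq_true, allLt_iff n, Nat.forall_lt_succ_right, and_comm]

/-- the list of candidate neighbourhoods is complete -/
def gen (PS J : ℕ) : ℕ → ℕ → ℕ → ℕ → Bool
  | 0, s, c, w => !(Nat.beq c 0) || !(Nat.beq w 0) || !allLt (fun j => !Nat.beq (row PS j) s) J
  | n + 1, s, c, w => gen PS J n s c w &&
      (Nat.beq c 0 || Nat.blt w n || gen PS J n (s + 2 ^ n) (c - 1) (w - n))

lemma gen_sound {PS J : ℕ} (f : ℕ → Bool) : ∀ n s, gen PS J n s (cnt f n) (wt f n) = true →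
    ∃ j < J, row PS j = s + mask f n
  | 0, s, h => by
    by_contra hc
    push Not at hc
    have : allLt (fun j => !Nat.beq (row PS j) s) J = true := (allLt_iff J).2 fun j hj => by
      cases e : Nat.beq (row PS j) s
      · rfl
      · exact absurd (Nat.eq_of_beq_eq_true e) (hc j hj)
    simp [gen, cnt, wt, this] at h
  | n + 1, s, h => by
    rw [gen, cnt, wt, Bool.and_eq_true] at h
    rw [mask]
    cases e : f n <;> rw [e] at h
    · exact gen_sound f n s h.1
    · have h2 := h.2
      simp only [cond_true, Bool.or_eq_true, Nat.beq_eq, Nat.blt_eq, Nat.add_sub_cancel] at h2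
      rcases h2 with (h2 | h2) | h2
      · omega
      · omega
      · simpa [add_assoc] using gen_sound f n _ h2

def init (PS J n : ℕ) : EL → Bool
  | .nil => true
  | .bad => false
  | .cons w x a b tl => Nat.blt w n && Nat.beq x b && allLt (fun j =>
      (a.testBit j == (row PS j).testBit w) && (b.testBit j == !(row PS j).testBit w)) J &&
      init PS J n tl

lemma refute {m r PS J v a b : ℕ} {tl : EL} (xs : List ℕ)
    (h1 : gen PS J (2 * m + 1) 0 r (r * m) = true)
    (h2 : init PS J (2 * m + 1) (.cons v (xs.foldr (· ||| ·) 0) a b tl) = true)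
    (h3 : ∀ x ∈ xs, go PS 20 (.cons v x a b tl) = true) : ¬ Z 0 (C m) r := by
  rw [Z_iff_ZB]
  rintro ⟨f, f1, f2⟩
  have : ∀ v, ∃ j, v < 2 * m + 1 → j < J ∧ row PS j = mask (f v) (2 * m + 1) := by
    intro v
    by_cases hv : v < 2 * m + 1
    swap
    · exact ⟨0, fun h => absurd h hv⟩
    obtain ⟨j, hj, e⟩ := gen_sound (PS := PS) (J := J) (f v) (2 * m + 1) 0
      (by rw [(f2 v hv).2.1, (f2 v hv).2.2]; exact h1)
    exact ⟨j, fun _ => ⟨hj, by simpa using e⟩⟩
  choose idx hidx using this
  have hg : ∀ l, init PS J (2 * m + 1) l = true → Good PS (2 * m + 1) idx J l := by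
    intro l
    induction l with
    | nil => intro _; trivial
    | bad => intro h; simp [init] at h
    | cons w x a b tl ih =>
      intro h
      simp only [init, Bool.and_eq_true, Nat.blt_eq, Nat.beq_eq, allLt_iff, beq_iff_eq] at h
      obtain ⟨⟨⟨a1, a2⟩, a4⟩, a5⟩ := h
      refine ⟨a1, ?_, a4, ih a5⟩
      rw [a2, (a4 _ (hidx _ a1).1).2, (hidx _ a1).2, (mask_spec _ _).2 _ a1, (f2 _ a1).1]; rfl
  have g := hg _ h2
  have : ∀ (xs : List ℕ) (i : ℕ), (xs.foldr (· ||| ·) 0).testBit i = true →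
      ∃ x ∈ xs, x.testBit i = true := by
    intro xs i
    induction xs with
    | nil => simp
    | cons x xs ih =>
      rw [List.foldr_cons, Nat.testBit_or, Bool.or_eq_true]
      rintro (h | h)
      · exact ⟨x, List.mem_cons_self, h⟩
      · obtain ⟨y, hy, h⟩ := ih h
        exact ⟨y, List.mem_cons_of_mem _ hy, h⟩
  obtain ⟨x, hx, hx2⟩ := this xs _ g.2.1
  refine go_sound (n := 2 * m + 1) (J := J) (idx := idx) (fun w hw => (hidx w hw).1)
    (fun v hv w hw => ?_) 20 _ (show Good _ _ _ _ (.cons v x a b tl) from ⟨g.1, hx2, g.2.2⟩) (h3 x hx)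
  rw [(hidx v hv).2, (hidx w hw).2, (mask_spec _ _).2 w hw, (mask_spec _ _).2 v hv, f1 v hv w hw]

end Pool.Agent.Lib.MP_046423_co
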