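import Pool.Agent.Lib.MP_046423_co.Basic

set_option autoImplicit false

namespace Pool.Agent.Lib.MP_046423_co

open Finset
open Pool.Agent.Shared.ErdosGallai

lemma exists_enum (P : Finset ℤ) (t : ℕ) (h : P.card = t) : ∃ e : ℕ → ℤ, (∀ p < t, e p ∈ P) ∧
    (∀ p < t, ∀ q < t, e p = e q → p = q) ∧ ∀ x ∈ P, ∃ p < t, e p = x := by
  subst h
  refine ⟨fun p => if h : p < P.card then (P.equivFin.symm ⟨p, h⟩ : ℤ) else 0, fun p hp => ?_,
    fun p hp q hq e => ?_, fun x hx => ⟨P.equivFin ⟨x, hx⟩, (P.equivFin ⟨x, hx⟩).2, ?_⟩⟩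
  · simp [hp]
  · simp only [hp, hq, dif_pos] at e
    have := P.equivFin.symm.injective (Subtype.ext e)
    simpa using this
  · simp

lemma sys_outer (m0 j t : ℕ) (h : j = 0 ∨ (m0 ≤ t ∧ 2 * j ≤ m0 + t)) :
    Sys (2 * j) t (Icc (-((m0 + 3 * j + t : ℕ) : ℤ)) (m0 + 3 * j + t : ℕ) \ Icc (-(m0 : ℤ)) m0) := by
  obtain ⟨M, hM1, hM2, hM3⟩ : ∃ M : ℕ, m0 ≤ M ∧ j ≤ M ∧ (j = 0 ∨ 2 * M ≤ m0 + t) :=
    ⟨max m0 j, by omega, by omega, by omega⟩
  set U : Finset ℤ := Ico ((M : ℤ) + 1) (M + 2 * j + 1) ∪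
    (range j).image (fun i : ℕ => 2 * (M : ℤ) + j + 2 + 2 * i) with hU
  have mU : ∀ x, x ∈ U ↔ ((M : ℤ) + 1 ≤ x ∧ x < M + 2 * j + 1) ∨
      (2 * (M : ℤ) + j + 2 ≤ x ∧ x ≤ 2 * M + 3 * j ∧ (x - j) % 2 = 0) := by
    intro x
    simp only [hU, mem_union, mem_Ico, mem_image, mem_range]
    refine or_congr Iff.rfl ⟨?_, fun hx => ⟨((x - j - 2 * M - 2) / 2).toNat, by omega, by omega⟩⟩
    rintro ⟨i, hi, rfl⟩
    omega
  have cU : U.card = 3 * j := by
    rw [hU, card_union_of_disjoint, card_image_of_injective _ fun a b e => by omega]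
    · simp; omega
    · rw [disjoint_left]
      intro x hx hx'
      simp only [mem_Ico, mem_image, mem_range] at hx hx'
      obtain ⟨i, hi, rfl⟩ := hx'
      omega
  set P : Finset ℤ := Icc ((m0 : ℤ) + 1) (m0 + 3 * j + t) \ U with hP
  have cP : P.card = t := by
    rw [hP, card_sdiff_of_subset fun x hx => by rw [mU] at hx; rw [mem_Icc]; omega, cU]
    simp; omega
  obtain ⟨e, e1, e2, e3⟩ := exists_enum P t cP
  have e1' : ∀ p < t, ((m0 : ℤ) + 1 ≤ e p ∧ e p ≤ m0 + 3 * j + t) ∧
      ¬ (((M : ℤ) + 1 ≤ e p ∧ e p < M + 2 * j + 1) ∨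
      (2 * (M : ℤ) + j + 2 ≤ e p ∧ e p ≤ 2 * M + 3 * j ∧ (e p - j) % 2 = 0)) := fun p hp => by
    have := e1 p hp
    rwa [hP, mem_sdiff, mem_Icc, mU] at this
  refine ⟨fun i => match i with
    | .inl c => if c < j then {(M : ℤ) + 1 + c, (M : ℤ) + j + 1 + c, -(2 * (M : ℤ) + j + 2 + 2 * c)}
        else {-((M : ℤ) + 1 + (c - j)), -((M : ℤ) + j + 1 + (c - j)), 2 * (M : ℤ) + j + 2 + 2 * (c - j)}
    | .inr p => {e p, -e p}, ?_, ?_, fun c hc => ?_, fun p hp => ?_, ?_⟩
  · rintro (c | p) hi (c' | q) hj x h1 h2 <;>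
      simp only [inl_mem_disjSum, inr_mem_disjSum, mem_range] at hi hj <;> dsimp only at h1 h2
    · split_ifs at h1 h2 <;> simp only [mem_insert, mem_singleton] at h1 h2 <;> congr 1 <;> omega
    · have := e1' q hj
      split_ifs at h1 <;> simp only [mem_insert, mem_singleton] at h1 h2 <;> omega
    · have := e1' p hi
      split_ifs at h2 <;> simp only [mem_insert, mem_singleton] at h1 h2 <;> omega
    · have := e1' p hi
      have := e1' q hj
      simp only [mem_insert, mem_singleton] at h1 h2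
      rw [e2 p hi q hj (by omega)]
  · rintro (c | p) hi <;> simp only [inl_mem_disjSum, inr_mem_disjSum, mem_range] at hi <;> dsimp only
    · split_ifs <;>
        rw [sum_insert (by simp only [mem_insert, mem_singleton]; omega), sum_pair (by omega)] <;> ring
    · have := e1' p hi
      rw [sum_pair (by omega)]; ring
  · dsimp only
    split_ifs <;>
      rw [card_insert_of_notMem (by simp only [mem_insert, mem_singleton]; omega), card_pair (by omega)]
  · have := e1' p hp
    exact card_pair (by omega)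
  · ext x
    simp only [mem_biUnion, mem_sdiff, mem_Icc]
    constructor
    · rintro ⟨c | p, hi, h1⟩ <;> simp only [inl_mem_disjSum, inr_mem_disjSum, mem_range] at hi <;>
        dsimp only at h1
      · split_ifs at h1 <;> simp only [mem_insert, mem_singleton] at h1 <;> omega
      · have := e1' p hi
        simp only [mem_insert, mem_singleton] at h1; omega
    · intro hx
      by_cases hu : |x| ∈ U
      · rw [mU] at hu
        have : ∃ c : ℕ, c < 2 * j ∧ ((c < j ∧ (x = (M : ℤ) + 1 + c ∨ x = (M : ℤ) + j + 1 + c ∨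
            x = -(2 * (M : ℤ) + j + 2 + 2 * c))) ∨ (¬ c < j ∧ (x = -((M : ℤ) + 1 + (c - j)) ∨
            x = -((M : ℤ) + j + 1 + (c - j)) ∨ x = 2 * (M : ℤ) + j + 2 + 2 * (c - j)))) := by
          rcases abs_cases x with ⟨h1, h2⟩ | ⟨h1, h2⟩ <;> rw [h1] at hu <;> rcases hu with hu | hu
          · by_cases h3 : x < M + j + 1
            · exact ⟨(x - M - 1).toNat, by omega, by omega⟩
            · exact ⟨(x - M - j - 1).toNat, by omega, by omega⟩
          · exact ⟨((x - j - 2 * M - 2) / 2).toNat + j, by omega, by omega⟩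
          · by_cases h3 : -x < M + j + 1
            · exact ⟨(-x - M - 1).toNat + j, by omega, by omega⟩
            · exact ⟨(-x - M - j - 1).toNat + j, by omega, by omega⟩
          · exact ⟨((-x - j - 2 * M - 2) / 2).toNat, by omega, by omega⟩
        obtain ⟨c, hc, h1⟩ := this
        refine ⟨.inl c, by simpa using hc, ?_⟩
        dsimp only
        split_ifs <;> simp only [mem_insert, mem_singleton] <;> omega
      · obtain ⟨p, hp, h1⟩ := e3 |x| (by
          rw [hP, mem_sdiff, mem_Icc]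
          refine ⟨?_, hu⟩
          rcases abs_cases x with ⟨h1, h2⟩ | ⟨h1, h2⟩ <;> omega)
        refine ⟨.inr p, by simpa using hp, ?_⟩
        simp only [mem_insert, mem_singleton]
        rcases abs_cases x with ⟨h1, h2⟩ | ⟨h1, h2⟩ <;> omega

lemma Sys.central {k t : ℕ} {L : Finset ℤ} (h : Sys k t L) (hL : ∀ x ∈ L, x < -1 ∨ 1 < x) :
    Sys (k + 1) t (Icc (-1) 1 ∪ L) := by
  obtain ⟨B, b1, b2, b3, b4, rfl⟩ := h
  have hL' : ∀ i ∈ (range k).disjSum (range t), ∀ x ∈ B i, x < -1 ∨ 1 < x :=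
    fun i hi x hx => hL x (mem_biUnion.2 ⟨i, hi, hx⟩)
  have hm : ∀ i ∈ (range (k + 1)).disjSum (range t), i ≠ .inl k → i ∈ (range k).disjSum (range t) := by
    rintro (c | p) hi h <;> simp at hi h ⊢ <;> omega
  refine ⟨fun i => if i = .inl k then Icc (-1) 1 else B i, fun i hi j hj x h1 h2 => ?_,
    fun i hi => ?_, fun c hc => ?_, fun p hp => ?_, ?_⟩
  · dsimp only at h1 h2
    split_ifs at h1 h2 with a b b
    · rw [a, b]
    · have := hL' j (hm j hj b) x h2; rw [mem_Icc] at h1; omega
    · have := hL' i (hm i hi a) x h1; rw [mem_Icc] at h2; omega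
    · exact b1 i (hm i hi a) j (hm j hj b) x h1 h2
  · dsimp only
    split_ifs with a
    · decide
    · exact b2 i (hm i hi a)
  · dsimp only
    split_ifs with a
    · decide
    · exact b3 c (by simp at a; omega)
  · simpa using b4 p hp
  · ext x
    simp only [mem_biUnion, mem_union]
    constructor
    · rintro ⟨i, hi, h⟩
      split_ifs at h with a
      · exact Or.inl h
      · exact Or.inr ⟨i, hm i hi a, h⟩
    · rintro (h | ⟨i, hi, h⟩)
      · exact ⟨.inl k, by simp, by simpa using h⟩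
      · refine ⟨i, ?_, ?_⟩
        · rcases i with c | p <;> simp at hi ⊢ <;> omega
        · rw [if_neg]; exact h
          rintro rfl; simp at hi

/-- centred interval of labels -/
noncomputable def C (m : ℕ) : Finset ℤ := Icc (-(m : ℤ)) m

lemma card_C (m : ℕ) : (C m).card = 2 * m + 1 := by simp [C]; omega

lemma sum_C (m : ℕ) : ∑ y ∈ C m, y = 0 := by
  refine sum_involution (fun x _ => -x) (fun _ _ => by ring) (fun x _ h => by omega)
    (fun x hx => by simp only [C, mem_Icc] at hx ⊢; omega) (fun _ _ => by ring)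

lemma C_union {m0 m : ℕ} (h : m0 ≤ m) : C m0 ∪ (C m \ C m0) = C m :=
  union_sdiff_of_subset fun x hx => by simp only [C, mem_Icc] at hx ⊢; omega

/-- open form from closed form and conversely -/
lemma Z_open {m : ℕ} {σ r : ℤ} (h : Z 1 (C m) σ) (e : r + σ = 2 * m + 1) : Z 0 (C m) r := by
  have := h.compl (sum_C m)
  rw [card_C] at this
  have e2 : r = ((2 * m + 1 : ℕ) : ℤ) - σ := by push_cast; omega
  rw [e2]; simpa using this

lemma Z_closed {m : ℕ} {σ r : ℤ} (h : Z 0 (C m) r) (e : r + σ = 2 * m + 1) : Z 1 (C m) σ := by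
  have := h.compl (sum_C m)
  rw [card_C] at this
  have e2 : σ = ((2 * m + 1 : ℕ) : ℤ) - r := by push_cast; omega
  rw [e2]; simpa using this

lemma Z_zero (m : ℕ) : Z 0 (C m) 0 := ⟨0, by simp, by simp, by simp, by simp, by simp⟩

/-- Operation A: add a cocktail party component. -/
lemma opA {m h : ℕ} (hz : Z 0 (C m) (2 * h)) : Z 0 (C (m + h + 1)) (2 * h) := by
  obtain ⟨B, b1, b2, b3, b4, b5⟩ := sys_outer m 0 (h + 1) (Or.inl rfl)
  have := Z.blocks _ B 0 (2 * h) b1 b2 (fun i j => if i = j then 0 else 1)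
    (fun i _ j _ => by split_ifs <;> simp) (fun i _ j _ => by simp only [eq_comm]) (fun i _ => by simp)
    (by
      rintro (c | p) hi <;> simp only [inl_mem_disjSum, inr_mem_disjSum, mem_range] at hi
      · omega
      · rw [sum_disjSum, sum_congr (s₁ := range (h + 1)) rfl
          (g := fun q => 2 - if p = q then 2 else 0) fun q hq => by
            rw [b4 q (mem_range.1 hq)]; by_cases e : p = q <;> simp [e]]
        simp [hi]; ring)
  rw [b5] at this
  have := hz.union this disjoint_sdiff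
  rw [← C_union (show m ≤ m + h + 1 by omega)]
  exact this

/-- Operation B: add `2 j` blocks of size `σ = 2 x + 3` to the complement. -/
lemma opB {m j x : ℕ} (hx : 1 ≤ x) (hz : Z 1 (C m) (2 * x + 3)) (h : m ≤ 2 * j * x) :
    Z 1 (C (m + 3 * j + 2 * j * x)) (2 * x + 3) := by
  rcases Nat.eq_zero_or_pos j with rfl | hj
  · simpa using hz
  have hs := sys_outer m j (2 * j * x) (Or.inr ⟨h, by nlinarith⟩)
  obtain ⟨H, ok, hH⟩ := band (t := 2 * j * x) (d := fun _ => (x : ℤ) - 1) (x - 1) (x - 1)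
    (fun _ _ _ _ => le_rfl) (by omega) (fun _ _ => le_rfl) (fun _ _ => le_rfl)
    (by simp only [sum_const, card_range, nsmul_eq_mul]; exact ⟨j * x * (x - 1), by push_cast; ring⟩)
    (by push_cast; nlinarith) (fun k hk => by
      have h1 : (1 : ℤ) ≤ j := by omega
      have h2 : (1 : ℤ) ≤ x := by omega
      have h3 : (0 : ℤ) ≤ (j - 1) * x * (x - 1) := by
        have : (0 : ℤ) ≤ j - 1 := by omega
        have : (0 : ℤ) ≤ x - 1 := by omega
        positivity
      have h4 : (0 : ℤ) ≤ (k - x) * (k - x + 1) := mul_nonneg (by omega) (by omega)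
      have h5 : (0 : ℤ) ≤ x * (x - 1) := mul_nonneg (by omega) (by omega)
      push_cast; nlinarith)
  have := hs.closed x (fun _ => 1) (2 * x + 3) (fun _ _ => by omega) (by simp) (by ring) H ok
    (fun p hp => by rw [hH p hp]; push_cast; ring)
  have := hz.union this disjoint_sdiff
  rw [← C_union (show m ≤ m + 3 * j + 2 * j * x by omega)]
  exact this

/-- The parametric family: `2 j + 1` triples, `u + b` pairs. -/
lemma param {j u b y a x : ℕ} (hj : 2 * j ≤ 1 + (u + b)) (h1 : 1 ≤ u + b) (hy : y + 2 ≤ 2 * j + 1)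
    (hs : (u + b) * y + 2 * b = (2 * j + 1) * x) (hσ : 2 * x = 5 + 3 * y + 2 * a)
    (ha : (a + 2) ^ 2 ≤ (u + b) * a) (hpar : ((u + b) * a + 3 * u) % 2 = 0) :
    Z 1 (C (1 + 3 * j + (u + b))) (2 * x + 3) := by
  have hs0 := (sys_outer 1 j (u + b) (Or.inr ⟨h1, hj⟩)).central (fun x hx => by
    simp only [mem_sdiff, mem_Icc] at hx; omega)
  have sum2 : ∀ (p q : ℤ), ∑ i ∈ range (u + b), (if i < u then p else q) = u * p + b * q := by
    intro p q
    rw [sum_range_add, sum_congr rfl (g := fun _ => p) fun i hi => if_pos (mem_range.1 hi),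
      sum_congr (s₁ := range b) rfl (g := fun _ => q) fun i hi => if_neg (by omega)]
    simp
  have ha' : ((a : ℤ) + 2) ^ 2 ≤ (u + b) * a := by exact_mod_cast ha
  obtain ⟨H, ok, hH⟩ := band (t := u + b) (d := fun i => if i < u then (a : ℤ) + 3 else a) a (a + 3)
    (fun i j hij _ => by split_ifs <;> omega) (by omega) (fun _ _ => by split_ifs <;> omega)
    (fun _ _ => by split_ifs <;> omega)
    (by
      rw [sum2]
      obtain ⟨w, hw⟩ : ∃ w, (u + b) * a + 3 * u = w + w := ⟨((u + b) * a + 3 * u) / 2, by omega⟩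
      have : (((u + b) * a + 3 * u : ℕ) : ℤ) = w + w := by exact_mod_cast hw
      exact ⟨w, by push_cast at this; linarith⟩)
    (by
      by_contra hc
      have : u + b ≤ a + 3 := by omega
      nlinarith)
    (fun k hk => by push_cast; nlinarith [sq_nonneg (k - a - 2)])
  have := hs0.closed x (fun i => if i < u then y else y + 2) (2 * x + 3)
    (fun _ _ => by split_ifs <;> omega)
    (by
      have := sum2 y (y + 2)
      have hs' : ((u : ℤ) + b) * y + 2 * b = (2 * j + 1) * x := by exact_mod_cast hs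
      zify
      simp only [Nat.cast_lt]
      rw [this]; linarith) (by ring) H ok
    (fun p hp => by rw [hH p hp]; split_ifs <;> omega)
  rw [← C_union (show 1 ≤ 1 + 3 * j + (u + b) by omega)]
  exact this

/-- complete multipartite graph with parts of size three -/
lemma triples (j : ℕ) : Z 1 (C (3 * j + 1)) 3 := by
  have := Z.blocks (Icc (-(j : ℤ)) j) (fun i => if i ≤ 0 then {i, i - j - 1, j + 1 - 2 * i}
    else {i, i - 3 * j - 2, 3 * j + 2 - 2 * i}) 1 3 ?_ ?_ (fun i k => if i = k then 1 else 0)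
    (fun i _ k _ => by split_ifs <;> simp) (fun i _ k _ => by simp only [eq_comm]) (fun i _ => by simp)
    ?_
  · have e : (Icc (-(j : ℤ)) j).biUnion (fun i => if i ≤ 0 then ({i, i - j - 1, j + 1 - 2 * i} : Finset ℤ)
      else {i, i - 3 * j - 2, 3 * j + 2 - 2 * i}) = C (3 * j + 1) := by
      ext x
      simp only [mem_biUnion, C, mem_Icc]
      constructor
      · rintro ⟨i, hi, h⟩
        split_ifs at h <;> simp only [mem_insert, mem_singleton] at h <;> omega
      · intro hx
        have : ∃ i : ℤ, (-(j : ℤ) ≤ i ∧ i ≤ j) ∧ ((i ≤ 0 ∧ (x = i ∨ x = i - j - 1 ∨ x = j + 1 - 2 * i)) ∨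
            (¬ i ≤ 0 ∧ (x = i ∨ x = i - 3 * j - 2 ∨ x = 3 * j + 2 - 2 * i))) := by
          by_cases h1 : x < -2 * j - 1
          · exact ⟨x + 3 * j + 2, by omega⟩
          by_cases h2 : x < -j
          · exact ⟨x + j + 1, by omega⟩
          by_cases h3 : x ≤ j
          · exact ⟨x, by omega⟩
          by_cases h4 : (j + 1 - x) % 2 = 0
          · exact ⟨(j + 1 - x) / 2, by omega⟩
          · exact ⟨(3 * j + 2 - x) / 2, by omega⟩
        obtain ⟨i, hi, h⟩ := this
        refine ⟨i, hi, ?_⟩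
        split_ifs <;> simp only [mem_insert, mem_singleton] <;> omega
    rwa [e] at this
  · intro i hi k hk x h1 h2
    rw [mem_Icc] at hi hk
    split_ifs at h1 h2 <;> simp only [mem_insert, mem_singleton] at h1 h2 <;> omega
  · intro i hi
    rw [mem_Icc] at hi
    split_ifs <;>
      rw [sum_insert (by simp only [mem_insert, mem_singleton]; omega), sum_pair (by omega)] <;> ring
  · intro i hi
    rw [sum_eq_single i (fun k _ h => by simp [h.symm]) (fun h => absurd hi h)]
    rw [mem_Icc] at hi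
    simp only [if_true, one_mul]
    split_ifs <;>
      rw [card_insert_of_notMem (by simp only [mem_insert, mem_singleton]; omega),
        card_pair (by omega)] <;> rfl

end Pool.Agent.Lib.MP_046423_co
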