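import Pool.Agent.Lib.MP_046423_co.RefSmall

set_option autoImplicit false

namespace Pool.Agent.Lib.MP_046423_co

theorem c_15_4_1 : go ps_15_4 20 (.cons 0 0x20000 0xffff 0x1fffffffffffff0000 tl_15_4) = true := by
  decide +kernel

theorem c_15_4_4 : go ps_15_4 20 (.cons 0 0x100000 0xffff 0x1fffffffffffff0000 tl_15_4) = true := by
  decide +kernel

theorem c_15_4_7 : go ps_15_4 20 (.cons 0 0x800000 0xffff 0x1fffffffffffff0000 tl_15_4) = true := by
  decide +kernel

theorem c_15_4_10 : go ps_15_4 20 (.cons 0 0x4000000 0xffff 0x1fffffffffffff0000 tl_15_4) = true := by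
  decide +kernel

theorem c_15_4_13 : go ps_15_4 20 (.cons 0 0x20000000 0xffff 0x1fffffffffffff0000 tl_15_4) = true := by
  decide +kernel

theorem c_15_4_16 : go ps_15_4 20 (.cons 0 0x100000000 0xffff 0x1fffffffffffff0000 tl_15_4) = true := by
  decide +kernel

theorem c_15_4_19 : go ps_15_4 20 (.cons 0 0x800000000 0xffff 0x1fffffffffffff0000 tl_15_4) = true := by
  decide +kernel

theorem c_15_4_22 : go ps_15_4 20 (.cons 0 0x4000000000 0xffff 0x1fffffffffffff0000 tl_15_4) = true := by
  decide +kernel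

theorem c_15_4_25 : go ps_15_4 20 (.cons 0 0x20000000000 0xffff 0x1fffffffffffff0000 tl_15_4) = true := by
  decide +kernel

theorem c_15_4_28 : go ps_15_4 20 (.cons 0 0x100000000000 0xffff 0x1fffffffffffff0000 tl_15_4) = true := by
  decide +kernel

theorem c_15_4_31 : go ps_15_4 20 (.cons 0 0x800000000000 0xffff 0x1fffffffffffff0000 tl_15_4) = true := by
  decide +kernel

theorem c_15_4_34 : go ps_15_4 20 (.cons 0 0x4000000000000 0xffff 0x1fffffffffffff0000 tl_15_4) = true := by
  decide +kernel

theorem c_15_4_37 : go ps_15_4 20 (.cons 0 0x20000000000000 0xffff 0x1fffffffffffff0000 tl_15_4) = true := by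
  decide +kernel

theorem c_15_4_40 : go ps_15_4 20 (.cons 0 0x100000000000000 0xffff 0x1fffffffffffff0000 tl_15_4) = true := by
  decide +kernel

theorem c_15_4_43 : go ps_15_4 20 (.cons 0 0x800000000000000 0xffff 0x1fffffffffffff0000 tl_15_4) = true := by
  decide +kernel

theorem c_15_4_46 : go ps_15_4 20 (.cons 0 0x4000000000000000 0xffff 0x1fffffffffffff0000 tl_15_4) = true := by
  decide +kernel

theorem c_15_4_49 : go ps_15_4 20 (.cons 0 0x20000000000000000 0xffff 0x1fffffffffffff0000 tl_15_4) = true := by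
  decide +kernel

theorem c_15_4_52 : go ps_15_4 20 (.cons 0 0x100000000000000000 0xffff 0x1fffffffffffff0000 tl_15_4) = true := by
  decide +kernel

end Pool.Agent.Lib.MP_046423_co
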