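import Pool.Agent.Lib.MP_046423_co.RefSmall

set_option autoImplicit false

namespace Pool.Agent.Lib.MP_046423_co

theorem c_15_4_2 : go ps_15_4 20 (.cons 0 0x40000 0xffff 0x1fffffffffffff0000 tl_15_4) = true := by
  decide +kernel

theorem c_15_4_5 : go ps_15_4 20 (.cons 0 0x200000 0xffff 0x1fffffffffffff0000 tl_15_4) = true := by
  decide +kernel

theorem c_15_4_8 : go ps_15_4 20 (.cons 0 0x1000000 0xffff 0x1fffffffffffff0000 tl_15_4) = true := by
  decide +kernel

theorem c_15_4_11 : go ps_15_4 20 (.cons 0 0x8000000 0xffff 0x1fffffffffffff0000 tl_15_4) = true := by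
  decide +kernel

theorem c_15_4_14 : go ps_15_4 20 (.cons 0 0x40000000 0xffff 0x1fffffffffffff0000 tl_15_4) = true := by
  decide +kernel

theorem c_15_4_17 : go ps_15_4 20 (.cons 0 0x200000000 0xffff 0x1fffffffffffff0000 tl_15_4) = true := by
  decide +kernel

theorem c_15_4_20 : go ps_15_4 20 (.cons 0 0x1000000000 0xffff 0x1fffffffffffff0000 tl_15_4) = true := by
  decide +kernel

theorem c_15_4_23 : go ps_15_4 20 (.cons 0 0x8000000000 0xffff 0x1fffffffffffff0000 tl_15_4) = true := by
  decide +kernel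

theorem c_15_4_26 : go ps_15_4 20 (.cons 0 0x40000000000 0xffff 0x1fffffffffffff0000 tl_15_4) = true := by
  decide +kernel

theorem c_15_4_29 : go ps_15_4 20 (.cons 0 0x200000000000 0xffff 0x1fffffffffffff0000 tl_15_4) = true := by
  decide +kernel

theorem c_15_4_32 : go ps_15_4 20 (.cons 0 0x1000000000000 0xffff 0x1fffffffffffff0000 tl_15_4) = true := by
  decide +kernel

theorem c_15_4_35 : go ps_15_4 20 (.cons 0 0x8000000000000 0xffff 0x1fffffffffffff0000 tl_15_4) = true := by
  decide +kernel

theorem c_15_4_38 : go ps_15_4 20 (.cons 0 0x40000000000000 0xffff 0x1fffffffffffff0000 tl_15_4) = true := by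
  decide +kernel

theorem c_15_4_41 : go ps_15_4 20 (.cons 0 0x200000000000000 0xffff 0x1fffffffffffff0000 tl_15_4) = true := by
  decide +kernel

theorem c_15_4_44 : go ps_15_4 20 (.cons 0 0x1000000000000000 0xffff 0x1fffffffffffff0000 tl_15_4) = true := by
  decide +kernel

theorem c_15_4_47 : go ps_15_4 20 (.cons 0 0x8000000000000000 0xffff 0x1fffffffffffff0000 tl_15_4) = true := by
  decide +kernel

theorem c_15_4_50 : go ps_15_4 20 (.cons 0 0x40000000000000000 0xffff 0x1fffffffffffff0000 tl_15_4) = true := by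
  decide +kernel

end Pool.Agent.Lib.MP_046423_co
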