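import Pool.Agent.Lib.MP_046423_co.RefBig0
import Pool.Agent.Lib.MP_046423_co.RefBig1
import Pool.Agent.Lib.MP_046423_co.RefBig2

set_option autoImplicit false

namespace Pool.Agent.Lib.MP_046423_co

theorem no_15_4 : ¬ Z 0 (C 7) (4 : ℕ) :=
  refute (PS := ps_15_4) (J := 69) (v := 0) (a := 0xffff) (b := 0x1fffffffffffff0000) (tl := tl_15_4)
    [0x10000, 0x20000, 0x40000, 0x80000, 0x100000, 0x200000, 0x400000, 0x800000, 0x1000000, 0x2000000, 0x4000000, 0x8000000, 0x10000000, 0x20000000, 0x40000000, 0x80000000, 0x100000000, 0x200000000, 0x400000000, 0x800000000, 0x1000000000, 0x2000000000, 0x4000000000, 0x8000000000, 0x10000000000, 0x20000000000, 0x40000000000, 0x80000000000, 0x100000000000, 0x200000000000, 0x400000000000, 0x800000000000, 0x1000000000000, 0x2000000000000, 0x4000000000000, 0x8000000000000, 0x10000000000000, 0x20000000000000, 0x40000000000000, 0x80000000000000, 0x100000000000000, 0x200000000000000, 0x400000000000000, 0x800000000000000, 0x1000000000000000,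 0x2000000000000000, 0x4000000000000000, 0x8000000000000000, 0x10000000000000000, 0x20000000000000000, 0x40000000000000000, 0x80000000000000000, 0x100000000000000000]
    (by decide +kernel) (by decide +kernel) (by
      simp only [List.forall_mem_cons]
      exact ⟨c_15_4_0, c_15_4_1, c_15_4_2, c_15_4_3, c_15_4_4, c_15_4_5, c_15_4_6, c_15_4_7, c_15_4_8, c_15_4_9, c_15_4_10, c_15_4_11, c_15_4_12, c_15_4_13, c_15_4_14, c_15_4_15, c_15_4_16, c_15_4_17, c_15_4_18, c_15_4_19, c_15_4_20, c_15_4_21, c_15_4_22, c_15_4_23, c_15_4_24, c_15_4_25, c_15_4_26, c_15_4_27, c_15_4_28, c_15_4_29, c_15_4_30, c_15_4_31, c_15_4_32, c_15_4_33, c_15_4_34, c_15_4_35, c_15_4_36, c_15_4_37, c_15_4_38, c_15_4_39, c_15_4_40, c_15_4_41, c_15_4_42, c_15_4_43, c_15_4_44, c_15_4_45, c_15_4_46, c_15_4_47, c_15_4_48, c_15_4_49, c_15_4_50, c_15_4_51, c_15_4_52, by simp⟩)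

end Pool.Agent.Lib.MP_046423_co
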