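import Pool.Agent.Lib.MP_046423_co.Certs
import Pool.Agent.Lib.MP_046423_co.Refute

set_option autoImplicit false

namespace Pool.Agent.Lib.MP_046423_co

open Finset

def Feas (m h : ℕ) : Prop := h = 0 ∨ (h + 1 = m ∧ m % 3 = 1) ∨ (2 ≤ h ∧ h + 2 ≤ m ∧
  ¬ (h = 2 ∧ m ≤ 7) ∧ ¬ (h = 3 ∧ m = 5) ∧ ¬ (h = 4 ∧ m = 6))

instance (m h : ℕ) : Decidable (Feas m h) := by unfold Feas; infer_instance

/-- side conditions of the parametric family -/
def Par (x h j y : ℕ) : Prop :=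
  3 * j + 1 ≤ h + x ∧ 2 * j ≤ 1 + (h + x - 3 * j) ∧ y + 2 ≤ 2 * j + 1 ∧
  (h + x - 3 * j) * y ≤ (2 * j + 1) * x ∧ ((2 * j + 1) * x - (h + x - 3 * j) * y) % 2 = 0 ∧
  (2 * j + 1) * x ≤ (h + x - 3 * j) * (y + 2) ∧ 5 + 3 * y ≤ 2 * x ∧ y % 2 = 1 ∧
  ((2 * x - 5 - 3 * y) / 2 + 2) ^ 2 ≤ (h + x - 3 * j) * ((2 * x - 5 - 3 * y) / 2) ∧
  ((h + x - 3 * j) * ((2 * x - 5 - 3 * y) / 2)
    + 3 * ((h + x - 3 * j) - ((2 * j + 1) * x - (h + x - 3 * j) * y) / 2)) % 2 = 0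

instance (x h j y : ℕ) : Decidable (Par x h j y) := by unfold Par; infer_instance

lemma Par.Z {x h j y : ℕ} (p : Par x h j y) : Z 0 (C (h + x + 1)) (2 * h) := by
  obtain ⟨p1, p2, p3, p4, p5, p6, p7, p8, p9, p10⟩ := p
  obtain ⟨t, ht⟩ : ∃ t, t = h + x - 3 * j := ⟨_, rfl⟩
  rw [← ht] at p2 p4 p5 p6 p9 p10
  obtain ⟨a, ha⟩ : ∃ a, a = (2 * x - 5 - 3 * y) / 2 := ⟨_, rfl⟩
  rw [← ha] at p9 p10
  obtain ⟨b, hb⟩ : ∃ b, b = ((2 * j + 1) * x - t * y) / 2 := ⟨_, rfl⟩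
  rw [← hb] at p10
  rw [mul_add t] at p6
  obtain ⟨u, rfl⟩ : ∃ u, t = u + b := ⟨t - b, by omega⟩
  rw [Nat.add_sub_cancel] at p10
  have := param (j := j) (u := u) (b := b) (y := y) (a := a) (x := x) p2 (by omega) p3 (by omega)
    (by omega) p9 p10
  rw [show 1 + 3 * j + (u + b) = h + x + 1 by omega] at this
  exact Z_open this (by push_cast; ring)

lemma par_large {x h : ℕ} (hx : 18 ≤ x) (h1 : x ≤ h + 1) (h2 : h ≤ 4 * x + 10) :
    ∃ j y, Par x h j y := by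
  have key : ∀ j y t a b : ℕ, t + 3 * j = h + x → 2 * a + 5 + 3 * y = 2 * x →
      t * y + 2 * b = (2 * j + 1) * x → b ≤ t → a + 8 ≤ t → 1 ≤ a → 2 * j ≤ 1 + t →
      y + 2 ≤ 2 * j + 1 → ((t % 2 = 0 ∨ a % 2 = 0) ∧ (t - b) % 2 = 0 ∨
        t % 2 = 1 ∧ a % 2 = 1 ∧ (t - b) % 2 = 1) → ∃ j y, Par x h j y := by
    intro j y t a b e1 e2 e3 e4 e5 e6 e7 e8 e9
    refine ⟨j, y, ?_⟩
    unfold Par
    rw [show h + x - 3 * j = t by omega, show (2 * x - 5 - 3 * y) / 2 = a by omega,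
      show ((2 * j + 1) * x - t * y) / 2 = b by omega, mul_add t]
    refine ⟨by omega, e7, e8, by omega, by omega, by omega, by omega, by omega, by nlinarith, ?_⟩
    rw [Nat.add_mod, Nat.mul_mod t a]
    rcases e9 with ⟨e | e, e'⟩ | ⟨e, e', e''⟩
    · rw [e]; omega
    · rw [e]; omega
    · rw [e, e']; omega
  have k2 : ∀ j y : ℕ, (3 * j ≤ h + x ∧ 5 + 3 * y ≤ 2 * x ∧ y % 2 = 1 ∧
      (h + x - 3 * j) * y ≤ (2 * j + 1) * x ∧ ((2 * j + 1) * x - (h + x - 3 * j) * y) % 2 = 0 ∧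
      ((2 * j + 1) * x - (h + x - 3 * j) * y) / 2 ≤ h + x - 3 * j ∧
      (2 * x - 5 - 3 * y) / 2 + 8 ≤ h + x - 3 * j ∧ 1 ≤ (2 * x - 5 - 3 * y) / 2 ∧
      2 * j ≤ 1 + (h + x - 3 * j) ∧ y + 2 ≤ 2 * j + 1 ∧
      (((h + x - 3 * j) % 2 = 0 ∨ (2 * x - 5 - 3 * y) / 2 % 2 = 0) ∧
        (h + x - 3 * j - ((2 * j + 1) * x - (h + x - 3 * j) * y) / 2) % 2 = 0 ∨
        (h + x - 3 * j) % 2 = 1 ∧ (2 * x - 5 - 3 * y) / 2 % 2 = 1 ∧
        (h + x - 3 * j - ((2 * j + 1) * x - (h + x - 3 * j) * y) / 2) % 2 = 1)) →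
      ∃ j y, Par x h j y := by
    rintro j y ⟨e1, e2, e3, e4, e5, e6, e7, e8, e9, e10, e11⟩
    exact key j y _ _ _ (by omega) (by omega) (by omega) e6 e7 e8 e9 e10 e11
  -- residue class of j modulo 4
  obtain ⟨x', rx, hrx, rfl⟩ : ∃ x' rx, rx < 4 ∧ x = 4 * x' + rx := ⟨x / 4, x % 4, by omega, by omega⟩
  obtain ⟨h', rh, hrh, rfl⟩ : ∃ h' rh, rh < 4 ∧ h = 4 * h' + rh := ⟨h / 4, h % 4, by omega, by omega⟩
  interval_cases rx <;> interval_cases rh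
  · by_cases c1 : 9 * (4 * x' + 0) ≤ 3 * ((4 * h' + 0) + (4 * x' + 0) - 12)
    · exact k2 4 1 (by omega)
    by_cases c2 : 9 * (4 * x' + 0) ≤ 5 * ((4 * h' + 0) + (4 * x' + 0) - 12)
    · exact k2 4 3 (by omega)
    · exact k2 4 5 (by omega)
  · by_cases c1 : 7 * (4 * x' + 0) ≤ 3 * ((4 * h' + 1) + (4 * x' + 0) - 9)
    · exact k2 3 1 (by omega)
    by_cases c2 : 7 * (4 * x' + 0) ≤ 5 * ((4 * h' + 1) + (4 * x' + 0) - 9)
    · exact k2 3 3 (by omega)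
    · exact k2 3 5 (by omega)
  · by_cases c0 : (4 * h' + 2) + (4 * x' + 0) - 6 ≤ 5 * (4 * x' + 0)
    · by_cases c1 : 5 * (4 * x' + 0) ≤ 3 * ((4 * h' + 2) + (4 * x' + 0) - 6)
      · exact k2 2 1 (by omega)
      by_cases c2 : 5 * (4 * x' + 0) ≤ 5 * ((4 * h' + 2) + (4 * x' + 0) - 6)
      · exact k2 2 3 (by omega)
      · omega
    · by_cases c1 : 13 * (4 * x' + 0) ≤ 3 * ((4 * h' + 2) + (4 * x' + 0) - 18)
      · exact k2 6 1 (by omega)
      by_cases c2 : 13 * (4 * x' + 0) ≤ 5 * ((4 * h' + 2) + (4 * x' + 0) - 18)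
      · exact k2 6 3 (by omega)
      · exact k2 6 5 (by omega)
  · by_cases c0 : (4 * h' + 3) + (4 * x' + 0) - 3 ≤ 3 * (4 * x' + 0)
    · by_cases c1 : 3 * (4 * x' + 0) ≤ 3 * ((4 * h' + 3) + (4 * x' + 0) - 3)
      · exact k2 1 1 (by omega)
      · omega
    · by_cases c1 : 11 * (4 * x' + 0) ≤ 3 * ((4 * h' + 3) + (4 * x' + 0) - 15)
      · exact k2 5 1 (by omega)
      by_cases c2 : 11 * (4 * x' + 0) ≤ 5 * ((4 * h' + 3) + (4 * x' + 0) - 15)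
      · exact k2 5 3 (by omega)
      · exact k2 5 5 (by omega)
  · by_cases c1 : 9 * (4 * x' + 1) ≤ 3 * ((4 * h' + 0) + (4 * x' + 1) - 12)
    · exact k2 4 1 (by omega)
    by_cases c2 : 9 * (4 * x' + 1) ≤ 5 * ((4 * h' + 0) + (4 * x' + 1) - 12)
    · exact k2 4 3 (by omega)
    · exact k2 4 5 (by omega)
  · by_cases c0 : (4 * h' + 1) + (4 * x' + 1) - 3 ≤ 3 * (4 * x' + 1)
    · by_cases c1 : 3 * (4 * x' + 1) ≤ 3 * ((4 * h' + 1) + (4 * x' + 1) - 3)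
      · exact k2 1 1 (by omega)
      · omega
    · by_cases c1 : 11 * (4 * x' + 1) ≤ 3 * ((4 * h' + 1) + (4 * x' + 1) - 15)
      · exact k2 5 1 (by omega)
      by_cases c2 : 11 * (4 * x' + 1) ≤ 5 * ((4 * h' + 1) + (4 * x' + 1) - 15)
      · exact k2 5 3 (by omega)
      · exact k2 5 5 (by omega)
  · by_cases c0 : (4 * h' + 2) + (4 * x' + 1) - 6 ≤ 5 * (4 * x' + 1)
    · by_cases c1 : 5 * (4 * x' + 1) ≤ 3 * ((4 * h' + 2) + (4 * x' + 1) - 6)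
      · exact k2 2 1 (by omega)
      by_cases c2 : 5 * (4 * x' + 1) ≤ 5 * ((4 * h' + 2) + (4 * x' + 1) - 6)
      · exact k2 2 3 (by omega)
      · omega
    · by_cases c1 : 13 * (4 * x' + 1) ≤ 3 * ((4 * h' + 2) + (4 * x' + 1) - 18)
      · exact k2 6 1 (by omega)
      by_cases c2 : 13 * (4 * x' + 1) ≤ 5 * ((4 * h' + 2) + (4 * x' + 1) - 18)
      · exact k2 6 3 (by omega)
      · exact k2 6 5 (by omega)
  · by_cases c1 : 7 * (4 * x' + 1) ≤ 3 * ((4 * h' + 3) + (4 * x' + 1) - 9)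
    · exact k2 3 1 (by omega)
    by_cases c2 : 7 * (4 * x' + 1) ≤ 5 * ((4 * h' + 3) + (4 * x' + 1) - 9)
    · exact k2 3 3 (by omega)
    · exact k2 3 5 (by omega)
  · by_cases c1 : 9 * (4 * x' + 2) ≤ 3 * ((4 * h' + 0) + (4 * x' + 2) - 12)
    · exact k2 4 1 (by omega)
    by_cases c2 : 9 * (4 * x' + 2) ≤ 5 * ((4 * h' + 0) + (4 * x' + 2) - 12)
    · exact k2 4 3 (by omega)
    · exact k2 4 5 (by omega)
  · by_cases c1 : 7 * (4 * x' + 2) ≤ 3 * ((4 * h' + 1) + (4 * x' + 2) - 9)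
    · exact k2 3 1 (by omega)
    by_cases c2 : 7 * (4 * x' + 2) ≤ 5 * ((4 * h' + 1) + (4 * x' + 2) - 9)
    · exact k2 3 3 (by omega)
    · exact k2 3 5 (by omega)
  · by_cases c0 : (4 * h' + 2) + (4 * x' + 2) - 6 ≤ 5 * (4 * x' + 2)
    · by_cases c1 : 5 * (4 * x' + 2) ≤ 3 * ((4 * h' + 2) + (4 * x' + 2) - 6)
      · exact k2 2 1 (by omega)
      by_cases c2 : 5 * (4 * x' + 2) ≤ 5 * ((4 * h' + 2) + (4 * x' + 2) - 6)
      · exact k2 2 3 (by omega)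
      · omega
    · by_cases c1 : 13 * (4 * x' + 2) ≤ 3 * ((4 * h' + 2) + (4 * x' + 2) - 18)
      · exact k2 6 1 (by omega)
      by_cases c2 : 13 * (4 * x' + 2) ≤ 5 * ((4 * h' + 2) + (4 * x' + 2) - 18)
      · exact k2 6 3 (by omega)
      · exact k2 6 5 (by omega)
  · by_cases c0 : (4 * h' + 3) + (4 * x' + 2) - 3 ≤ 3 * (4 * x' + 2)
    · by_cases c1 : 3 * (4 * x' + 2) ≤ 3 * ((4 * h' + 3) + (4 * x' + 2) - 3)
      · exact k2 1 1 (by omega)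
      · omega
    · by_cases c1 : 11 * (4 * x' + 2) ≤ 3 * ((4 * h' + 3) + (4 * x' + 2) - 15)
      · exact k2 5 1 (by omega)
      by_cases c2 : 11 * (4 * x' + 2) ≤ 5 * ((4 * h' + 3) + (4 * x' + 2) - 15)
      · exact k2 5 3 (by omega)
      · exact k2 5 5 (by omega)
  · by_cases c1 : 9 * (4 * x' + 3) ≤ 3 * ((4 * h' + 0) + (4 * x' + 3) - 12)
    · exact k2 4 1 (by omega)
    by_cases c2 : 9 * (4 * x' + 3) ≤ 5 * ((4 * h' + 0) + (4 * x' + 3) - 12)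
    · exact k2 4 3 (by omega)
    · exact k2 4 5 (by omega)
  · by_cases c0 : (4 * h' + 1) + (4 * x' + 3) - 3 ≤ 3 * (4 * x' + 3)
    · by_cases c1 : 3 * (4 * x' + 3) ≤ 3 * ((4 * h' + 1) + (4 * x' + 3) - 3)
      · exact k2 1 1 (by omega)
      · omega
    · by_cases c1 : 11 * (4 * x' + 3) ≤ 3 * ((4 * h' + 1) + (4 * x' + 3) - 15)
      · exact k2 5 1 (by omega)
      by_cases c2 : 11 * (4 * x' + 3) ≤ 5 * ((4 * h' + 1) + (4 * x' + 3) - 15)
      · exact k2 5 3 (by omega)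
      · exact k2 5 5 (by omega)
  · by_cases c0 : (4 * h' + 2) + (4 * x' + 3) - 6 ≤ 5 * (4 * x' + 3)
    · by_cases c1 : 5 * (4 * x' + 3) ≤ 3 * ((4 * h' + 2) + (4 * x' + 3) - 6)
      · exact k2 2 1 (by omega)
      by_cases c2 : 5 * (4 * x' + 3) ≤ 5 * ((4 * h' + 2) + (4 * x' + 3) - 6)
      · exact k2 2 3 (by omega)
      · omega
    · by_cases c1 : 13 * (4 * x' + 3) ≤ 3 * ((4 * h' + 2) + (4 * x' + 3) - 18)
      · exact k2 6 1 (by omega)
      by_cases c2 : 13 * (4 * x' + 3) ≤ 5 * ((4 * h' + 2) + (4 * x' + 3) - 18)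
      · exact k2 6 3 (by omega)
      · exact k2 6 5 (by omega)
  · by_cases c1 : 7 * (4 * x' + 3) ≤ 3 * ((4 * h' + 3) + (4 * x' + 3) - 9)
    · exact k2 3 1 (by omega)
    by_cases c2 : 7 * (4 * x' + 3) ≤ 5 * ((4 * h' + 3) + (4 * x' + 3) - 9)
    · exact k2 3 3 (by omega)
    · exact k2 3 5 (by omega)

/-- finite region -/
def cov (x h : ℕ) : Bool :=
  decide (¬ Feas (h + x + 1) h) || decide (h = 0) || decide (Feas x h) ||
  (List.range 22).any (fun j => decide (1 ≤ j ∧ (2 * x + 3) * j ≤ h ∧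
    Feas (h + x + 1 - (2 * x + 3) * j) (h - (2 * x + 3) * j) ∧
    h + x + 1 - (2 * x + 3) * j ≤ 2 * j * x)) ||
  (List.range 12).any (fun j => [1, 3, 5, 7].any fun y => decide (Par x h j y)) ||
  decide ((h + x + 1, 2 * h) ∈ keys)

theorem cov_ok : allLt (fun x => allLt (fun h => cov (x + 1) h) 107) 17 = true := by decide +kernel

theorem exists_of_feas : ∀ m h, Feas m h → Z 0 (C m) (2 * h) := by
  intro m
  induction m using Nat.strong_induction_on with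
  | _ m ih =>
  intro h hf
  by_cases h0 : h = 0
  · subst h0; simpa using Z_zero m
  by_cases h1 : h + 1 = m
  · obtain ⟨j, rfl⟩ : ∃ j, m = 3 * j + 1 := ⟨m / 3, by unfold Feas at hf; omega⟩
    exact Z_open (triples j) (by omega)
  obtain ⟨x, rfl, hx⟩ : ∃ x, m = h + x + 1 ∧ 1 ≤ x := ⟨m - h - 1, by unfold Feas at hf; omega⟩
  have A : Feas x h → Z 0 (C (h + x + 1)) (2 * h) := fun f => by
    rw [add_comm h x]; exact opA (ih x (by omega) h f)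
  have B : ∀ j, (1 ≤ j ∧ (2 * x + 3) * j ≤ h ∧
      Feas (h + x + 1 - (2 * x + 3) * j) (h - (2 * x + 3) * j) ∧
      h + x + 1 - (2 * x + 3) * j ≤ 2 * j * x) → Z 0 (C (h + x + 1)) (2 * h) := by
    rintro j ⟨j1, j2, j3, j4⟩
    obtain ⟨h', rfl⟩ := Nat.exists_eq_add_of_le j2
    have e : (2 * x + 3) * j + h' + x + 1 - (2 * x + 3) * j = h' + x + 1 := by omega
    rw [e] at j3 j4
    rw [Nat.add_sub_cancel_left] at j3
    have hp : 0 < (2 * x + 3) * j := by positivity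
    have := opB hx (Z_closed (σ := 2 * x + 3) (ih _ (by omega) _ j3) (by push_cast; ring)) j4
    rw [show h' + x + 1 + 3 * j + 2 * j * x = (2 * x + 3) * j + h' + x + 1 by ring] at this
    exact Z_open this (by push_cast; ring)
  by_cases c1 : h + 2 ≤ x ∧ 8 ≤ x
  · exact A (by unfold Feas at hf ⊢; omega)
  by_cases c2 : 5 + 6 * (2 * x + 3) ≤ h ∨ (8 ≤ x ∧ 4 * x + 11 ≤ h)
  · have e1 := Nat.div_add_mod (h - 5) (2 * x + 3)
    have e2 := Nat.mod_lt (h - 5) (show 0 < 2 * x + 3 by omega)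
    set j := (h - 5) / (2 * x + 3) with hj
    have e3 : 6 ≤ j ∨ (8 ≤ x ∧ 2 ≤ j) := by
      rcases c2 with c | c
      · left; rw [hj, Nat.le_div_iff_mul_le (by omega)]; omega
      · right; rw [hj, Nat.le_div_iff_mul_le (by omega)]; omega
    have e4 : 3 * x + 8 ≤ 2 * j * x := by rcases e3 with c | c <;> nlinarith
    exact B j ⟨by omega, by omega, by unfold Feas; omega, by omega⟩
  by_cases c3 : 18 ≤ x
  · obtain ⟨j, y, p⟩ := par_large (x := x) (h := h) c3 (by omega) (by omega)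
    exact p.Z
  have := (allLt_iff _).1 ((allLt_iff _).1 cov_ok (x - 1) (by omega)) h (by omega)
  rw [show x - 1 + 1 = x by omega] at this
  simp only [cov, Bool.or_eq_true, decide_eq_true_eq, List.any_eq_true] at this
  rcases this with ((((c | c) | c) | ⟨j, -, c⟩) | ⟨j, -, y, -, c⟩) | c
  · exact absurd hf c
  · exact absurd c h0
  · exact A c
  · exact B j c
  · exact c.Z
  · simpa using keys_ok c

lemma not_two (m : ℕ) : ¬ Z 0 (C m) 2 := by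
  rintro ⟨A, h1, h2, h3, h4, h5⟩
  have h0 : (0 : ℤ) ∈ C m := by simp [C]
  have : ∀ x ∈ C m, A 0 x = 0 := by
    intro x hx
    rcases h1 0 h0 x hx with h | h
    · exact h
    exfalso
    rw [h2 0 h0 x hx] at h
    have a4 := h4 x hx
    have a5 := h5 x hx
    rw [← add_sum_erase _ _ h0] at a4 a5
    have b4 : ∑ y ∈ (C m).erase 0, A x y = 1 := by omega
    obtain ⟨y, hy, hy1⟩ : ∃ y ∈ (C m).erase 0, A x y ≠ 0 := exists_ne_zero_of_sum_ne_zero (by omega)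
    have hy2 := h1 x hx y (mem_of_mem_erase hy)
    rw [← add_sum_erase _ _ hy] at b4
    have b5 : ∀ z ∈ ((C m).erase 0).erase y, A x z = 0 :=
      (sum_eq_zero_iff_of_nonneg fun z hz => by
        have := h1 x hx z (mem_of_mem_erase (mem_of_mem_erase hz)); omega).1 (by omega)
    rw [← add_sum_erase _ _ hy, sum_eq_zero fun z hz => by rw [b5 z hz, zero_mul]] at a5
    have := ne_of_mem_erase hy
    have e : A x y = 1 := by omega
    rw [e] at a5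
    omega
  have a := h4 0 h0
  rw [sum_eq_zero this] at a
  omega

lemma not_one {m : ℕ} (hm : 1 ≤ m) : ¬ Z 1 (C m) 1 := by
  rintro ⟨A, h1, -, h3, h4, h5⟩
  have hx : (1 : ℤ) ∈ C m := by simp [C]; omega
  have a4 := h4 1 hx
  have a5 := h5 1 hx
  rw [← add_sum_erase _ _ hx, h3 1 hx] at a4 a5
  have b5 : ∀ z ∈ (C m).erase 1, A 1 z = 0 :=
    (sum_eq_zero_iff_of_nonneg fun z hz => by
      have := h1 1 hx z (mem_of_mem_erase hz); omega).1 (by omega)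
  rw [sum_eq_zero fun z hz => by rw [b5 z hz, zero_mul]] at a5
  omega

lemma three_dvd {L : Finset ℤ} (h : Z 1 L 3) : 3 ∣ L.card := by
  obtain ⟨A, h1, h2, h3, h4, h5⟩ := h
  set N : ℤ → Finset ℤ := fun x => L.filter fun y => A x y = 1 with hN
  have c3 : ∀ x ∈ L, (N x).card = 3 := fun x hx => by
    have := h4 x hx
    rw [sum_congr rfl (g := fun y => if A x y = 1 then 1 else 0) fun y hy => by
      rcases h1 x hx y hy with h | h <;> simp [h], sum_boole] at this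
    exact_mod_cast this
  have s0 : ∀ x ∈ L, ∑ y ∈ N x, y = 0 := fun x hx => by
    rw [← h5 x hx, hN, sum_filter]
    exact sum_congr rfl fun y hy => by rcases h1 x hx y hy with h | h <;> simp [h]
  have self : ∀ x ∈ L, x ∈ N x := fun x hx => mem_filter.2 ⟨hx, h3 x hx⟩
  have form : ∀ x ∈ L, ∀ a ∈ N x, ∀ b ∈ N x, a ≠ b → N x = {a, b, -a - b} := by
    intro x hx a ha b hb hab
    have hb' : b ∈ (N x).erase a := mem_erase.2 ⟨hab.symm, hb⟩
    obtain ⟨z, hz⟩ : ∃ z, ((N x).erase a).erase b = {z} :=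
      card_eq_one.1 (by rw [card_erase_of_mem hb', card_erase_of_mem ha, c3 x hx])
    have := s0 x hx
    rw [← add_sum_erase _ _ ha, ← add_sum_erase _ _ hb', hz, sum_singleton] at this
    rw [← insert_erase ha, ← insert_erase hb', hz, show z = -a - b by omega]
  have eqv : ∀ x ∈ L, ∀ y ∈ N x, N y = N x := by
    intro x hx y hy
    by_cases e : x = y
    · rw [e]
    have hy' := mem_filter.1 hy
    rw [form x hx x (self x hx) y hy e, form y hy'.1 x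
      (mem_filter.2 ⟨hx, by rw [← h2 x hx y hy'.1]; exact hy'.2⟩) y (self y hy'.1) e]
  rw [card_eq_sum_card_image N L]
  refine dvd_sum fun S hS => ?_
  obtain ⟨x, hx, rfl⟩ := mem_image.1 hS
  have : (L.filter fun a => N a = N x) = N x := by
    ext a
    rw [mem_filter]
    exact ⟨fun h => h.2 ▸ self a h.1, fun h => ⟨(mem_filter.1 h).1, eqv x hx a h⟩⟩
  rw [this, c3 x hx]

theorem Z_iff_feas {m h : ℕ} (hh : h ≤ m) : Z 0 (C m) (2 * h) ↔ Feas m h := by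
  refine ⟨fun z => ?_, exists_of_feas m h⟩
  by_contra hc
  unfold Feas at hc
  have : h = 1 ∨ (h = m ∧ 1 ≤ m) ∨ (h + 1 = m ∧ m % 3 ≠ 1) ∨ (h = 2 ∧ m = 4) ∨ (h = 2 ∧ m = 5) ∨
      (h = 2 ∧ m = 6) ∨ (h = 2 ∧ m = 7) ∨ (h = 3 ∧ m = 5) ∨ (h = 4 ∧ m = 6) := by omega
  rcases this with rfl | ⟨rfl, h1⟩ | ⟨rfl, h1⟩ | ⟨rfl, rfl⟩ | ⟨rfl, rfl⟩ | ⟨rfl, rfl⟩ | ⟨rfl, rfl⟩ |
    ⟨rfl, rfl⟩ | ⟨rfl, rfl⟩
  · exact not_two m (by simpa using z)
  · exact not_one h1 (Z_closed z (by ring))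
  · have := three_dvd (Z_closed (σ := 3) z (by push_cast; ring))
    rw [card_C] at this
    omega
  · exact no_9_4 z
  · exact no_11_4 z
  · exact no_13_4 z
  · exact no_15_4 z
  · exact no_11_6 z
  · exact no_13_8 z

end Pool.Agent.Lib.MP_046423_co
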