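import Pool.Agent.Lib.MP_046423_co.RefSmall

set_option autoImplicit false

namespace Pool.Agent.Lib.MP_046423_co

theorem c_15_4_0 : go ps_15_4 20 (.cons 0 0x10000 0xffff 0x1fffffffffffff0000 tl_15_4) = true := by
  decide +kernel

theorem c_15_4_3 : go ps_15_4 20 (.cons 0 0x80000 0xffff 0x1fffffffffffff0000 tl_15_4) = true := by
  decide +kernel

theorem c_15_4_6 : go ps_15_4 20 (.cons 0 0x400000 0xffff 0x1fffffffffffff0000 tl_15_4) = true := by
  decide +kernel

theorem c_15_4_9 : go ps_15_4 20 (.cons 0 0x2000000 0xffff 0x1fffffffffffff0000 tl_15_4) = true := by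
  decide +kernel

theorem c_15_4_12 : go ps_15_4 20 (.cons 0 0x10000000 0xffff 0x1fffffffffffff0000 tl_15_4) = true := by
  decide +kernel

theorem c_15_4_15 : go ps_15_4 20 (.cons 0 0x80000000 0xffff 0x1fffffffffffff0000 tl_15_4) = true := by
  decide +kernel

theorem c_15_4_18 : go ps_15_4 20 (.cons 0 0x400000000 0xffff 0x1fffffffffffff0000 tl_15_4) = true := by
  decide +kernel

theorem c_15_4_21 : go ps_15_4 20 (.cons 0 0x2000000000 0xffff 0x1fffffffffffff0000 tl_15_4) = true := by
  decide +kernel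

theorem c_15_4_24 : go ps_15_4 20 (.cons 0 0x10000000000 0xffff 0x1fffffffffffff0000 tl_15_4) = true := by
  decide +kernel

theorem c_15_4_27 : go ps_15_4 20 (.cons 0 0x80000000000 0xffff 0x1fffffffffffff0000 tl_15_4) = true := by
  decide +kernel

theorem c_15_4_30 : go ps_15_4 20 (.cons 0 0x400000000000 0xffff 0x1fffffffffffff0000 tl_15_4) = true := by
  decide +kernel

theorem c_15_4_33 : go ps_15_4 20 (.cons 0 0x2000000000000 0xffff 0x1fffffffffffff0000 tl_15_4) = true := by
  decide +kernel

theorem c_15_4_36 : go ps_15_4 20 (.cons 0 0x10000000000000 0xffff 0x1fffffffffffff0000 tl_15_4) = true := by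
  decide +kernel

theorem c_15_4_39 : go ps_15_4 20 (.cons 0 0x80000000000000 0xffff 0x1fffffffffffff0000 tl_15_4) = true := by
  decide +kernel

theorem c_15_4_42 : go ps_15_4 20 (.cons 0 0x400000000000000 0xffff 0x1fffffffffffff0000 tl_15_4) = true := by
  decide +kernel

theorem c_15_4_45 : go ps_15_4 20 (.cons 0 0x2000000000000000 0xffff 0x1fffffffffffff0000 tl_15_4) = true := by
  decide +kernel

theorem c_15_4_48 : go ps_15_4 20 (.cons 0 0x10000000000000000 0xffff 0x1fffffffffffff0000 tl_15_4) = true := by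
  decide +kernel

theorem c_15_4_51 : go ps_15_4 20 (.cons 0 0x80000000000000000 0xffff 0x1fffffffffffff0000 tl_15_4) = true := by
  decide +kernel

end Pool.Agent.Lib.MP_046423_co
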